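import Pool.Agent.H320R2.L5.Main5

/-!
The lower half of the conjecture on the extremal total stopping times of the `5x+1` map (`L ≥ γ₅`),
together with lower bounds, of the order predicted by the branching random walk model, for the
number of integers up to `X` with a prescribed time constant.
-/

set_option autoImplicit false

namespace Pool.Agent.Results.MP_0baeaf_nt.ExtremalLower

/-- The `5x+1` map. -/
def T (n : ℕ) : ℕ := if n % 2 = 0 then n / 2 else (5 * n + 1) / 2

/-- `k` is the total stopping time of `n`: the least `k ≥ 0` with `T^(k)(n) = 1` (so it is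
finite). -/
def IsStoppingTime (n k : ℕ) : Prop := IsLeast {j : ℕ | T^[j] n = 1} k

/-- The natural-logarithm entropy function `H`. -/
noncomputable def H (a : ℝ) : ℝ := -a * Real.log a - (1 - a) * Real.log (1 - a)

/-- The frequency of odd steps which produces the time constant `lam`: the solution `ρ` of
`1 / lam = log 2 - ρ log 5`. -/
noncomputable def ρ (lam : ℝ) : ℝ := (Real.log 2 - 1 / lam) / Real.log 5

/-- There is exactly one `a ∈ (0,1)` with `H(a) = a log 5`; the constant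
`γ = 1 / (log 2 - a log 5)` (that is `γ₅`) lies between `84.7589` and `84.7592`; for every `ε > 0`
there are infinitely many `x` with `(γ - ε) log x < σ_∞(x) < ∞` (so `L ≥ γ₅`, the second half of
the frozen statement `S10943`); and for every `lam` between `1 / log 2` and `γ` the exponent
`lam (H(ρ) - ρ log 5)`, `ρ = ρ(lam)`, is positive and, for every `ε > 0`, at least
`X ^ (lam (H(ρ) - ρ log 5) - ε)` integers `2 ≤ n ≤ X` have finite `σ_∞(n)` with
`|σ_∞(n) / log n - lam| ≤ ε`, for all large `X`. -/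
theorem result : ∃ a γ : ℝ,
    (0 < a ∧ a < 1 ∧ H a = a * Real.log 5) ∧
    (∀ b : ℝ, 0 < b → b < 1 → H b = b * Real.log 5 → b = a) ∧
    γ = 1 / (Real.log 2 - a * Real.log 5) ∧ 84.7589 < γ ∧ γ < 84.7592 ∧
    (∀ ε : ℝ, 0 < ε →
      {x : ℕ | 2 ≤ x ∧ ∃ k : ℕ, IsStoppingTime x k ∧
        (γ - ε) * Real.log (x : ℝ) < (k : ℝ)}.Infinite) ∧
    (∀ lam : ℝ, 1 / Real.log 2 < lam → lam < γ →
      0 < lam * (H (ρ lam) - ρ lam * Real.log 5) ∧
      ∀ ε : ℝ, 0 < ε → ∃ X₀ : ℝ, ∀ X : ℝ, X₀ ≤ X →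
        X ^ (lam * (H (ρ lam) - ρ lam * Real.log 5) - ε) ≤
          (Set.ncard {n : ℕ | 2 ≤ n ∧ (n : ℝ) ≤ X ∧
            ∃ k : ℕ, IsStoppingTime n k ∧ |(k : ℝ) / Real.log n - lam| ≤ ε} : ℝ)) := by
  obtain ⟨r₀, γ, h1, h2, h3, h4, h5, h6, h7⟩ := Pool.Agent.H320R2.L5.main5
  refine ⟨r₀, γ, h1, fun b hb hb1 hb2 => h2 b hb hb1 hb2, h3, h4, h5, h7, ?_⟩
  intro lam hl1 hl2
  obtain ⟨h8, h9⟩ := h6 lam hl1 hl2
  have hlam : 0 < lam := lt_trans (by have := Real.log_pos (one_lt_two); positivity) hl1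
  have hFF : Pool.Agent.H320R2.L5.FF (Pool.Agent.H320R2.L5.rr lam) =
      H (ρ lam) - ρ lam * Real.log 5 := by
    rw [Pool.Agent.H320R2.L5.FF_eq]
    rfl
  rw [hFF] at h8
  refine ⟨mul_pos hlam h8, fun ε hε => ?_⟩
  have h10 := h9 ε hε
  rw [hFF] at h10
  exact h10

end Pool.Agent.Results.MP_0baeaf_nt.ExtremalLower
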